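import Mathlib
import Pool.Agent.V11296.Bhargava

/-!
# The Bhargava factorial of the set of twin primes

The proposed identity `n!_{P_2} / n!_P = 2 w_2(n)` fails for `n = 22`: the prime `23` is not a twin
prime, so that `P_2` meets only the `22` non-zero residue classes modulo `23` and `23` divides
`22!_{P_2}`, while `23` does not divide `22!_P`.
-/

set_option autoImplicit false

namespace Pool.Agent.Results.MP_e482b1_nt.FailsAt22

open Finset Pool.Agent.V11296.Bhargava

/-- The set of all primes, as a set of integers. -/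
def primeSet : Set ℤ := {x | ∃ q : ℕ, q.Prime ∧ x = q}

/-- The set of twin primes: all members of a pair of primes `q, q + 2`. -/
def twinPrimeSet : Set ℤ :=
  {x | ∃ q : ℕ, q.Prime ∧ (q + 2).Prime ∧ (x = q ∨ x = q + 2)}

lemma memB : ∀ x ∈ ([23, 47, 2, 3, 73, 5, 29, 7, 31, 101, 79, 11, 127, 13, 37, 61, 131, 17, 41, 19, 43, 67, 137] : List ℤ), x ∈ primeSet := by
  simp only [List.forall_mem_cons, List.not_mem_nil, false_imp_iff, implies_true, and_true]
  refine ⟨?_, ?_, ?_, ?_, ?_, ?_, ?_, ?_, ?_, ?_, ?_, ?_, ?_, ?_, ?_, ?_, ?_, ?_, ?_, ?_, ?_, ?_, ?_⟩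
  · exact ⟨23, by norm_num, by norm_num⟩
  · exact ⟨47, by norm_num, by norm_num⟩
  · exact ⟨2, by norm_num, by norm_num⟩
  · exact ⟨3, by norm_num, by norm_num⟩
  · exact ⟨73, by norm_num, by norm_num⟩
  · exact ⟨5, by norm_num, by norm_num⟩
  · exact ⟨29, by norm_num, by norm_num⟩
  · exact ⟨7, by norm_num, by norm_num⟩
  · exact ⟨31, by norm_num, by norm_num⟩
  · exact ⟨101, by norm_num, by norm_num⟩
  · exact ⟨79, by norm_num, by norm_num⟩
  · exact ⟨11, by norm_num, by norm_num⟩
  · exact ⟨127, by norm_num, by norm_num⟩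
  · exact ⟨13, by norm_num, by norm_num⟩
  · exact ⟨37, by norm_num, by norm_num⟩
  · exact ⟨61, by norm_num, by norm_num⟩
  · exact ⟨131, by norm_num, by norm_num⟩
  · exact ⟨17, by norm_num, by norm_num⟩
  · exact ⟨41, by norm_num, by norm_num⟩
  · exact ⟨19, by norm_num, by norm_num⟩
  · exact ⟨43, by norm_num, by norm_num⟩
  · exact ⟨67, by norm_num, by norm_num⟩
  · exact ⟨137, by norm_num, by norm_num⟩
lemma memA : ∀ x ∈ ([3, 5, 7, 11, 13, 17, 19, 29, 31, 41, 43, 59, 61, 71, 73, 101, 103, 107, 109, 137, 139, 149, 151] : List ℤ), x ∈ twinPrimeSet := by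
  simp only [List.forall_mem_cons, List.not_mem_nil, false_imp_iff, implies_true, and_true]
  refine ⟨?_, ?_, ?_, ?_, ?_, ?_, ?_, ?_, ?_, ?_, ?_, ?_, ?_, ?_, ?_, ?_, ?_, ?_, ?_, ?_, ?_, ?_, ?_⟩
  · exact ⟨3, by norm_num, by norm_num, by norm_num⟩
  · exact ⟨5, by norm_num, by norm_num, by norm_num⟩
  · exact ⟨5, by norm_num, by norm_num, by norm_num⟩
  · exact ⟨11, by norm_num, by norm_num, by norm_num⟩
  · exact ⟨11, by norm_num, by norm_num, by norm_num⟩
  · exact ⟨17, by norm_num, by norm_num, by norm_num⟩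
  · exact ⟨17, by norm_num, by norm_num, by norm_num⟩
  · exact ⟨29, by norm_num, by norm_num, by norm_num⟩
  · exact ⟨29, by norm_num, by norm_num, by norm_num⟩
  · exact ⟨41, by norm_num, by norm_num, by norm_num⟩
  · exact ⟨41, by norm_num, by norm_num, by norm_num⟩
  · exact ⟨59, by norm_num, by norm_num, by norm_num⟩
  · exact ⟨59, by norm_num, by norm_num, by norm_num⟩
  · exact ⟨71, by norm_num, by norm_num, by norm_num⟩
  · exact ⟨71, by norm_num, by norm_num, by norm_num⟩
  · exact ⟨101, by norm_num, by norm_num, by norm_num⟩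
  · exact ⟨101, by norm_num, by norm_num, by norm_num⟩
  · exact ⟨107, by norm_num, by norm_num, by norm_num⟩
  · exact ⟨107, by norm_num, by norm_num, by norm_num⟩
  · exact ⟨137, by norm_num, by norm_num, by norm_num⟩
  · exact ⟨137, by norm_num, by norm_num, by norm_num⟩
  · exact ⟨149, by norm_num, by norm_num, by norm_num⟩
  · exact ⟨149, by norm_num, by norm_num, by norm_num⟩

lemma notDvd : ∀ x ∈ twinPrimeSet, ¬ ((23 : ℕ) : ℤ) ∣ x := by
  rintro x ⟨q, hq, hq2, rfl | rfl⟩ h
  · have h1 : 23 ∣ q := by exact_mod_cast h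
    rw [Nat.prime_dvd_prime_iff_eq (by norm_num) hq] at h1
    subst h1
    revert hq2; norm_num
  · have h1 : 23 ∣ q + 2 := by exact_mod_cast h
    rw [Nat.prime_dvd_prime_iff_eq (by norm_num) hq2] at h1
    obtain rfl : q = 21 := by omega
    revert hq; norm_num

/-- `23` divides the factorial of the smaller set, but not that of the larger one. -/
lemma key {F G : ℕ} (hF : IsBhargavaFactorial twinPrimeSet 22 F) (hG : IsBhargavaFactorial primeSet 22 G) :
    23 ∣ F ∧ ¬ 23 ∣ G := by
  have hp : Nat.Prime 23 := by norm_num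
  have : Fact (Nat.Prime 23) := ⟨hp⟩
  refine ⟨?_, ?_⟩
  · obtain ⟨⟨a, ha⟩, h⟩ := hF.2 23 hp
    have h1 := h a ha
    have h2 := val_pos hp (by norm_num) ha notDvd
    rw [← h1] at h2
    exact dvd_of_one_le_padicValNat (by omega)
  · obtain ⟨⟨a, ha⟩, h⟩ := hG.2 23 hp
    have h1 := h a ha
    have h2 := val_zero hp ha ([23, 47, 2, 3, 73, 5, 29, 7, 31, 101, 79, 11, 127, 13, 37, 61, 131, 17, 41, 19, 43, 67, 137] : List ℤ).toFinset
      (by
        intro x hx
        exact memB x (by simpa using hx)) (by decide) (by decide)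
    rw [h2] at h1
    intro hdvd
    have := one_le_padicValNat_of_dvd hG.1 hdvd
    omega

/-- There is an integer `n ≥ 1` for which both factorials `n!_{P_2}` and `n!_P` are defined and
`n!_{P_2} / n!_P ≠ 2 w_2(n)`. -/
theorem result : ∃ n : ℕ, 1 ≤ n ∧ ∃ F G : ℕ, IsBhargavaFactorial twinPrimeSet n F ∧
    IsBhargavaFactorial primeSet n G ∧ (F : ℚ) / G ≠ 2 * 2 ^ padicValNat 2 n := by
  obtain ⟨F, hF⟩ := exists_factorial twinPrimeSet 22 ([3, 5, 7, 11, 13, 17, 19, 29, 31, 41, 43, 59, 61, 71, 73, 101, 103, 107, 109, 137, 139, 149, 151] : List ℤ).toFinset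
    (by
      intro x hx
      exact memA x (by simpa using hx)) (by decide)
  obtain ⟨G, hG⟩ := exists_factorial primeSet 22 ([23, 47, 2, 3, 73, 5, 29, 7, 31, 101, 79, 11, 127, 13, 37, 61, 131, 17, 41, 19, 43, 67, 137] : List ℤ).toFinset
    (by
      intro x hx
      exact memB x (by simpa using hx)) (by decide)
  refine ⟨22, by norm_num, F, G, hF, hG, ?_⟩
  intro h
  have hG0 : (G : ℚ) ≠ 0 := by exact_mod_cast hG.1
  have hv : padicValNat 2 22 = 1 := by
    have h1 : padicValNat 2 22 = padicValNat 2 (2 ^ 1 * 11) := by norm_num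
    rw [h1, padicValNat.mul (by norm_num) (by norm_num), padicValNat.prime_pow,
      padicValNat.eq_zero_of_not_dvd (by norm_num)]
  rw [hv, div_eq_iff hG0] at h
  have h2 : F = 4 * G := by
    have : (F : ℚ) = ((4 * G : ℕ) : ℚ) := by rw [h]; push_cast; ring
    exact_mod_cast this
  obtain ⟨h3, h4⟩ := key hF hG
  rw [h2, Nat.Prime.dvd_mul (by norm_num)] at h3
  rcases h3 with h3 | h3
  · revert h3; norm_num
  · exact h4 h3

end Pool.Agent.Results.MP_e482b1_nt.FailsAt22
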